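import Pool.Agent.H144Z.XY.Tri
import Pool.Agent.H59Z.NA.Final
import Pool.Agent.SCZ.Geo.Pack
import Pool.Agent.SCZ.Geo.TstepR
import Pool.Agent.SCZ.Geo.Tpersist
import Pool.Agent.SCZ.Geo.TlinesG
import Pool.Agent.SCZ.Geo.Tcoprod
import Pool.Agent.SCZ.Geo.Tbase0
import Pool.Agent.SCZ.Geo.Tbasic
import Pool.Agent.SCZ.Geo.Tfam
import Pool.Agent.SCZ.Geo.TloxqR
import Pool.Agent.SCZ.Geo.Tscale
import Pool.Agent.SCZ.Geo.Tthinq
import Pool.Agent.SCZ.Geo.TtriR

set_option autoImplicit false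

/-!
# One relative Burnside step, with lifting of elliptic triangles and properness
-/

namespace Pool.Agent.H144Z.XY

open Pool.Agent.H59Z.NA Pool.Agent.SCZ.Geo

theorem sbasic : S_basic := thm_basic tau_holds
theorem sscale : S_scale := thm_scale hyp_holds comm_holds sbasic
theorem slinesG : S_linesG := thm_linesG tau_holds hyp_holds axis_holds
theorem sfam : S_fam := thm_fam tau_holds hyp_holds sbasic
theorem spersist : S_persist := thm_persist tau_holds sfam
theorem sbdd : S_bdd := thm_bdd pos_holds fp_holds lfp_holds sbasic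
theorem striR : S_triR := thm_triR tau_holds pos_holds md_holds
theorem sthinq : S_thinq := thm_thinq tau_holds pos_holds md_holds sbasic sfam spersist
theorem sloxqR : S_loxqR := thm_loxqR tau_holds pos_holds md_holds sbasic
theorem sstepR : S_stepR :=
  thm_stepR tau_holds lox_holds acylq_holds sbasic sscale sfam sbdd striR sthinq sloxqR
theorem sbase0 : S_base0 := thm_base0 tau_holds comm_holds lox_holds sbasic sscale
theorem scoprod : S_coprod := thm_coprod sbasic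

section hyp

variable {Q V : Type} [Group Q] [MulAction Q V] {X : GM V} {δ A : ℕ} {τ₀ : ℝ}

theorem far_move (G : GoodR Q V X δ A τ₀) (hδ : 1 ≤ δ) (b : Q) (hb : Ell X b) (h1 : b ≠ 1)
    (x : V) (hx : X.d x (b • x) ≤ 2 * δ + 1) (y : V) :
    2 * X.d x y ≤ X.d y (b • y) + 2 * A := by
  by_contra hc
  push Not at hc
  obtain ⟨m, hm1, hm2⟩ := X.geo x y A (by omega)
  have f1 := G.four m (b • y) x y
  have f2 := G.four m (b • m) (b • x) (b • y)
  have e1 := G.inv b x y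
  have e2 := G.inv b m y
  have e3 := G.inv b m x
  have c1 := X.comm m x
  have c2 := X.comm (b • y) y
  have c3 := X.comm (b • y) x
  have t1 := X.tri x (b • x) (b • y)
  have t2 := X.tri m x (b • x)
  have hm : X.d m (b • m) ≤ 12 * δ := by omega
  rcases G.thin b x m (by omega) hm (by omega) with h | h
  · exact h1 h
  · rw [(sbasic Q V X δ G.inv G.four).2.2.1 b hb] at h
    exact lt_irrefl _ h

theorem close_fix (G : GoodR Q V X δ A τ₀) (hδ : 1 ≤ δ) (b b' : Q) (hb : Ell X b)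
    (hb' : Ell X b') (h1 : b ≠ 1) (h1' : b' ≠ 1) (hu : Ell X (b * b')) (x y : V)
    (hx : X.d x (b • x) ≤ 2 * δ + 1) (hy : X.d y (b' • y) ≤ 2 * δ + 1) :
    X.d x y ≤ 4 * A + 10 * δ + 10 := by
  by_contra hc
  push Not at hc
  have m1 := far_move G hδ b hb h1 x hx y
  have m2 := far_move G hδ b' hb' h1' y hy x
  have k := (sbasic Q V X δ G.inv G.four).1 (b * b') x
  rw [(sbasic Q V X δ G.inv G.four).2.2.1 _ hu] at k
  have k' : X.d x (((b * b') ^ 2) • x) ≤ X.d x ((b * b') • x) + δ := by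
    have : (X.d x (((b * b') ^ 2) • x) : ℝ) ≤ X.d x ((b * b') • x) + δ := by linarith
    exact_mod_cast this
  simp only [pow_two, mul_smul] at k'
  -- the points `a0 = b'⁻¹ x`, `y`, `x`, `b y`, `a4 = b b' x`
  have i1 : X.d (b'⁻¹ • x) x = X.d x (b' • x) := by rw [← G.inv b', smul_inv_smul]
  have i2 : X.d (b'⁻¹ • x) y = X.d x (b' • y) := by rw [← G.inv b', smul_inv_smul]
  have i3 : X.d (b'⁻¹ • x) (b • b' • x) = X.d x (b' • b • b' • x) := by
    rw [← G.inv b', smul_inv_smul]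
  have i4 := G.inv b x (b' • b • b' • x)
  have i5 := G.inv b x y
  have i6 := G.inv b y (b' • x)
  have i7 := G.inv b' y x
  have i8 := G.inv b x (b' • x)
  have f1 := G.four (b'⁻¹ • x) x y (b • y)
  have f2 := G.four (b'⁻¹ • x) (b • y) x (b • b' • x)
  have c1 := X.comm x y
  have c2 := X.comm x (b • y)
  have c3 := X.comm (b' • y) y
  have c4 := X.comm (b • x) x
  have t1 := X.tri x y (b' • y)
  have t2 := X.tri x (b • x) (b • y)
  have t3 := X.tri y (b' • y) (b' • x)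
  have t4 := X.tri (b • x) x (b • b' • x)
  have t5 := X.tri x (b • x) (b • b' • x)
  have t6 := X.tri x y (b' • x)
  have t7 := X.tri (b • x) x (b • b' • b • b' • x)
  omega

theorem fin_stage (G : GoodR Q V X δ A τ₀) (hδ : 1 ≤ δ) (hP : Proper X Q) (u : Q)
    (hu : Ell X u) (h1 : u ≠ 1) : {b : Q | Ell X b ∧ Ell X (b⁻¹ * u)}.Finite := by
  have hfix := (sbasic Q V X δ G.inv G.four).2.1
  obtain ⟨w, hw⟩ := hfix _ hu
  refine (((hP w (10 * A + 30 * δ + 30)).insert 1).insert u).subset ?_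
  rintro b ⟨e1, e2⟩
  by_cases n1 : b = 1
  · exact Or.inr (Or.inl n1)
  by_cases n2 : b⁻¹ * u = 1
  · exact Or.inl (inv_mul_eq_one.1 n2)
  refine Or.inr (Or.inr ?_)
  obtain ⟨x, hx⟩ := hfix _ e1
  obtain ⟨y, hy⟩ := hfix _ e2
  have hx' := hx b (Subgroup.mem_zpowers _)
  have hy' := hy _ (Subgroup.mem_zpowers _)
  have hd := close_fix G hδ b (b⁻¹ * u) e1 e2 n1 n2 (by rwa [mul_inv_cancel_left]) x y hx' hy'
  have m := far_move G hδ u hu h1 w (hw u (Subgroup.mem_zpowers _)) x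
  have e : u • x = b • (b⁻¹ * u) • x := by rw [smul_smul, mul_inv_cancel_left]
  have t1 := X.tri x (b • x) (b • (b⁻¹ * u) • x)
  have i1 := G.inv b x ((b⁻¹ * u) • x)
  have t2 := X.tri x y ((b⁻¹ * u) • x)
  have t3 := X.tri y ((b⁻¹ * u) • y) ((b⁻¹ * u) • x)
  have i2 := G.inv (b⁻¹ * u) y x
  have c1 := X.comm x y
  have t4 := X.tri w x (b • w)
  have t5 := X.tri x (b • x) (b • w)
  have i3 := G.inv b x w
  have c2 := X.comm x w
  rw [e] at m
  show X.d w (b • w) ≤ _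
  omega

end hyp

/-- One step: the `n`-th powers of the short loxodromic elements are killed. -/
theorem step (n : ℕ) (hn : Odd n) (hb : 10 ^ 32 ≤ n) (Q V : Type) [Group Q] [MulAction Q V]
    (X : GM V) (G : GoodR Q V X 122 (10 ^ 9) (1 / (3 * 10 ^ 13))) (hP : Proper X Q) :
    ∃ (R W : Type) (_ : Group R) (_ : MulAction R W) (Z : GM W) (π : Q →* R) (φ : V → W),
      GoodR R W Z 122 (10 ^ 9) (1 / (3 * 10 ^ 13)) ∧ Proper Z R ∧ Function.Surjective π ∧
      (∀ (q : Q) (p : V), φ (q • p) = π q • φ p) ∧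
      (∀ p q : V, Z.d (φ p) (φ q) ≤ 1 ∨ Z.d (φ p) (φ q) < X.d p q) ∧
      (∀ q : Q, X.tau q ≤ 1 → Ell Z (π q)) ∧
      (∀ q : Q, Ell X q → Ell Z (π q)) ∧
      (∀ q : Q, Ell X q → π q = 1 → q = 1) ∧
      (∀ H : Subgroup R, Bdd Z H → (∃ g : R, g ^ n = 1 ∧ H ≤ Subgroup.zpowers g) ∨
        ∃ H' : Subgroup Q, Bdd X H' ∧ H'.map π = H) ∧
      (∀ u₁ u₂ u₃ : Q, Ell X u₁ → Ell X u₂ → Ell X u₃ → u₁ ≠ 1 → u₂ ≠ 1 → u₃ ≠ 1 →
        π u₁ * π u₂ = π u₃ →
        ∃ v₁ v₂ : Q, Ell X v₁ ∧ Ell X v₂ ∧ π v₁ = π u₁ ∧ π v₂ = π u₂ ∧ v₁ * v₂ = u₃) ∧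
      (∀ q, π q = 1 → q ∈ Subgroup.normalClosure (Set.range fun w : Q => w ^ n)) := by
  obtain ⟨t1, t2, -, t4, t5, -, -⟩ := tau_holds Q V X G.inv
  obtain ⟨-, b2, b3, -⟩ := sbasic Q V X 122 G.inv G.four
  have hA := (sscale Q V X 122 (10 ^ 9) G.inv G.four G.thin).2 G.cyc G.mal G.acyl
  let P : Q → Prop := fun g => 0 < X.tau g ∧ X.tau g ≤ 1 ∧
    ∀ a, Commute a g → a ∈ Subgroup.zpowers g
  have hτ : ∀ g : Q, 0 < X.tau g → 1 / (3 * 10 ^ 13) ≤ X.tau g := by
    intro g hg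
    rcases G.dich g with h | h
    · rw [b3 g h] at hg; exact absurd hg (lt_irrefl _)
    · exact h
  have hnR : (10 ^ 32 : ℝ) ≤ n := by exact_mod_cast hb
  obtain ⟨I, iI, F, hF1, hF2⟩ := slinesG Q V X 122 (10 ^ 9 + 20 * (1 + 1500 * 122) + 40 * 122)
    (2 * 10 ^ 9) P (fun _ => n) G.inv G.four (by norm_num) (by norm_num)
    (by
      rintro g s ⟨h1, h2, h3⟩
      refine ⟨⟨by rwa [t5], by rwa [t5], fun a ha => ?_⟩, rfl⟩
      have : Commute (s⁻¹ * a * s) g := by
        have e := ha.eq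
        show s⁻¹ * a * s * g = g * (s⁻¹ * a * s)
        calc s⁻¹ * a * s * g = s⁻¹ * (a * (s * g * s⁻¹)) * s := by group
          _ = s⁻¹ * (s * g * s⁻¹ * a) * s := by rw [e]
          _ = g * (s⁻¹ * a * s) := by group
      obtain ⟨k, hk⟩ := Subgroup.mem_zpowers_iff.1 (h3 _ this)
      refine Subgroup.mem_zpowers_iff.2 ⟨k, ?_⟩
      rw [conj_zpow, hk]
      group)
    (by
      rintro g ⟨h1, h2, h3⟩
      refine ⟨h1, fun t ht => h3 t (G.mal g t h1 ?_), ?_⟩
      · obtain ⟨k, hk⟩ := Subgroup.mem_zpowers_iff.1 ht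
        rw [← hk]
        exact Commute.self_zpow g k
      · have := hτ g h1
        push_cast
        nlinarith)
    (by
      rintro g g' ⟨h1, h2, h3⟩ ⟨h1', h2', h3'⟩ hne a b ha hb ha' hb'
      by_contra hc
      have cv : ∀ (s : Q) (z : V), X.tau s ≤ 1 → z ∈ Ax X s (1500 * 122) →
          X.d z (s • z) ≤ 1 + 1500 * 122 := by
        intro s z hs hz
        have h : (X.d z (s • z) : ℝ) ≤ X.tau s + (1500 * 122 : ℕ) := hz
        have : (X.d z (s • z) : ℝ) ≤ (1 + 1500 * 122 : ℕ) := by push_cast at h ⊢; linarith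
        exact_mod_cast this
      have hcm := hA (1 + 1500 * 122) g g' a b (cv g a h2 ha) (cv g b h2 hb) (cv g' a h2' ha')
        (cv g' b h2' hb') (by omega)
      exact hne (le_antisymm (Subgroup.zpowers_le.2 (h3' g hcm))
        (Subgroup.zpowers_le.2 (h3 g' hcm.symm))))
  obtain ⟨W, J, iW, iJ, A, φ, ψ, hq⟩ := pack_holds Q V I X 122 (2 * 10 ^ 9) F G.ne G.inv G.four
    (by norm_num) (by norm_num)
  have hcov : ∀ g : Q, X.tau g ≤ 1 → Ell X g ∨ ∃ i, g ∈ Subgroup.zpowers (F.gen i) := by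
    intro g hg
    rcases G.dich g with h | h
    · exact Or.inl h
    · right
      have hpos : 0 < X.tau g := lt_of_lt_of_le (by norm_num) h
      obtain ⟨g0, hg0⟩ := G.cyc g hpos
      obtain ⟨k, hk⟩ := Subgroup.mem_zpowers_iff.1 (hg0 g (Commute.refl g))
      have e := t4 g0 k
      rw [hk] at e
      have hk0 : k ≠ 0 := by
        rintro rfl
        simp only [Int.cast_zero, abs_zero, zero_mul] at e
        exact hpos.ne' e
      have hk1 : (1 : ℝ) ≤ |(k : ℝ)| := by exact_mod_cast Int.one_le_abs hk0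
      have h0 := t2 g0
      have hP0 : P g0 := by
        refine ⟨?_, by nlinarith, fun a ha => hg0 a ?_⟩
        · rcases h0.lt_or_eq with h' | h'
          · exact h'
          · rw [← h', mul_zero] at e
            exact absurd e hpos.ne'
        · rw [← hk]
          exact ha.zpow_right k
      obtain ⟨i, hi | hi⟩ := hF2 g0 hP0
      · exact ⟨i, by rw [← hk, hi]; exact Subgroup.zpow_mem_zpowers _ _⟩
      · exact ⟨i, by
          rw [← hk, hi]
          exact Subgroup.zpow_mem _ (Subgroup.inv_mem _ (Subgroup.mem_zpowers _)) _⟩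
  have hG := sstepR Q V I X 122 (10 ^ 9) (2 * 10 ^ 9) 80 (1 / (3 * 10 ^ 13)) 1 F _ W J
    (QuotientGroup.mk' F.K) A φ ψ G (fun i => by rw [(hF1 i).2]; exact hn) (by norm_num)
    (by norm_num) (by norm_num) one_pos le_rfl
    (fun g => by
      rcases le_total (X.tau g) 1 with h | h
      · rcases hcov g h with h' | h'
        · exact Or.inl h'
        · exact Or.inr (Or.inl h')
      · exact Or.inr (Or.inr h)) hq
  obtain ⟨-, -, -, p4, -, p6, p7⟩ := spersist Q V I X 122 (2 * 10 ^ 9) F _ W J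
    (QuotientGroup.mk' F.K) A φ ψ G.inv G.four (by norm_num) hq
  obtain ⟨d1, d2, -, -⟩ := sbdd Q V I X 122 (2 * 10 ^ 9) F _ W J
    (QuotientGroup.mk' F.K) A φ ψ G.inv G.four (by norm_num) hq
  have hup : ∀ q : Q, Ell X q → Ell A.Z (QuotientGroup.mk' F.K q) := by
    intro q hq'
    have := p6 _ hq'
    rwa [MonoidHom.map_zpowers] at this
  refine ⟨Q ⧸ F.K, W, inferInstance, iW, A.Z, QuotientGroup.mk' F.K, φ, ?_, ?_, hq.quo.surj,
    hq.quo.φ_smul, ?_, ?_, hup, ?_, ?_, ?_, ?_⟩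
  · convert hG using 1
    norm_num
  · refine proper_quo hq n (fun i => ?_) hP
    rw [(hF1 i).2, ← (sfam Q V I X 122 _ F G.inv G.four (by norm_num)).1 i]
    have := (hF1 i).1.2.1
    have h0 : (0 : ℝ) ≤ n := Nat.cast_nonneg _
    nlinarith
  · intro p q
    have h := hq.quo.scale (X.d p q / (2 * 10 ^ 9)) p q (by omega)
    omega
  · intro q hq'
    rcases hcov q hq' with h | ⟨i, hi⟩
    · exact hup q h
    · refine p7 _ (ψ i) fun h hh => (p4 i h).2 ?_
      refine Subgroup.zpowers_le.2 ?_ hh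
      obtain ⟨k, rfl⟩ := Subgroup.mem_zpowers_iff.1 hi
      rw [map_zpow]
      exact Subgroup.zpow_mem_zpowers _ _
  · intro q hq' h1
    by_contra hne
    exact (d2 _ hq' q (Subgroup.mem_zpowers q) hne).1 h1
  · intro H hH
    rcases d1 H hH with ⟨i, hi⟩ | h
    · refine Or.inl ⟨_, ?_, hi⟩
      rw [← map_pow, ← (hF1 i).2]
      exact hq.quo.rel i
    · exact Or.inr h
  · intro u₁ u₂ u₃
    refine tri_lift G.inv hq (fun H hH => ?_) u₁ u₂ u₃
    obtain ⟨p, hp⟩ := b2 H hH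
    exact ⟨p, fun h hh => (hp h hh).trans (by norm_num)⟩
  · intro q hq'
    have hK : q ∈ F.K := (QuotientGroup.eq_one_iff q).1 hq'
    refine (Subgroup.closure_le _).2 ?_ hK
    rintro _ ⟨i, rfl⟩
    exact Subgroup.subset_normalClosure ⟨F.gen i, by simp only [(hF1 i).2]⟩

end Pool.Agent.H144Z.XY
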