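import Pool.Agent.H144Z.XY.Step

set_option autoImplicit false

/-!
# The limit group: a free product of two cyclic groups modulo the `n`-th powers of the
loxodromic elements
-/

namespace Pool.Agent.H144Z.XY

open Pool.Agent.H59Z.NA Pool.Agent.SCZ.Geo

/-- The cyclic factor. -/
abbrev Cy (n : ℕ) : Type := Multiplicative (ZMod (3 * n))

/-- The free product of two cyclic groups of order `3 * n`. -/
abbrev Fr (n : ℕ) : Type := Monoid.CoprodI (fun _ : Bool => Cy n)

/-- The generators. -/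
def gen (n : ℕ) (i : Bool) : Fr n :=
  Monoid.CoprodI.of (M := fun _ : Bool => Cy n) (i := i) (Multiplicative.ofAdd 1)

/-- The subgroup generated by the `n`-th powers. -/
abbrev NF (n : ℕ) : Subgroup (Fr n) := Subgroup.normalClosure (Set.range fun w : Fr n => w ^ n)

theorem cy_mem (n : ℕ) (x : Cy n) : x ∈ Subgroup.zpowers (Multiplicative.ofAdd (1 : ZMod (3 * n))) := by
  obtain ⟨k, hk⟩ := ZMod.intCast_surjective (Multiplicative.toAdd x)
  refine Subgroup.mem_zpowers_iff.2 ⟨k, ?_⟩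
  rw [← ofAdd_zsmul, zsmul_one, hk]
  rfl

theorem gen_pow_ne (n : ℕ) (hn : 0 < n) : gen n true ^ n ≠ 1 := by
  intro h
  unfold gen at h
  rw [← map_pow, ← map_one (Monoid.CoprodI.of (M := fun _ : Bool => Cy n) (i := true))] at h
  have h1 := Monoid.CoprodI.of_injective (M := fun _ : Bool => Cy n) true h
  rw [← ofAdd_nsmul, nsmul_one] at h1
  have h2 : ((n : ℕ) : ZMod (3 * n)) = 0 := h1
  rw [ZMod.natCast_eq_zero_iff] at h2
  have := Nat.le_of_dvd hn h2
  omega

theorem not_cyclic (n : ℕ) (h3 : 3 ∣ n) (w : Fr n) :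
    ¬ ∀ i : Bool, ∃ k : ℤ, (w ^ k)⁻¹ * gen n i ∈ NF n := by
  intro h
  let f : ZMod (3 * n) →+* ZMod 3 := ZMod.castHom (Dvd.intro n rfl) (ZMod 3)
  let χ : Fr n →* Multiplicative (Bool → ZMod 3) := Monoid.CoprodI.lift fun i =>
    AddMonoidHom.toMultiplicative ((AddMonoidHom.single (fun _ : Bool => ZMod 3) i).comp
      f.toAddMonoidHom)
  have hχ : ∀ i, χ (gen n i) = Multiplicative.ofAdd (Pi.single i 1) := by
    intro i
    simp [χ, gen]
  have hker : NF n ≤ χ.ker := by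
    apply Subgroup.normalClosure_le_normal
    rintro _ ⟨v, rfl⟩
    obtain ⟨m, rfl⟩ := h3
    have : ∀ z : Multiplicative (Bool → ZMod 3), z ^ 3 = 1 := by decide
    show χ (v ^ (3 * m)) = 1
    rw [map_pow, pow_mul, this, one_pow]
  have key : ∀ i, ∃ k : ZMod 3, k • Multiplicative.toAdd (χ w) = Pi.single i 1 := by
    intro i
    obtain ⟨k, hk⟩ := h i
    have h1 : χ ((w ^ k)⁻¹ * gen n i) = 1 := hker hk
    rw [map_mul, map_inv, inv_mul_eq_one, map_zpow, hχ] at h1
    refine ⟨k, ?_⟩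
    have h2 := congrArg Multiplicative.toAdd h1
    rw [toAdd_zpow, toAdd_ofAdd] at h2
    rw [← h2, Int.cast_smul_eq_zsmul]
  obtain ⟨k1, h1⟩ := key true
  obtain ⟨k2, h2⟩ := key false
  generalize Multiplicative.toAdd (χ w) = v at h1 h2
  revert k1 k2 v
  decide

/-- One stage of the tower. -/
structure Stage (n : ℕ) : Type 1 where
  Q : Type
  V : Type
  [gQ : Group Q]
  [act : MulAction Q V]
  X : GM V
  b : Fr n →* Q
  pt : V
  good : GoodR Q V X 122 (10 ^ 9) (1 / (3 * 10 ^ 13))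
  proper : Proper X Q
  surj : Function.Surjective b
  b_ker : ∀ w, b w = 1 → w ∈ NF n
  cyc : ∀ H : Subgroup Q, Bdd X H → ∃ g, H ≤ Subgroup.zpowers g
  ell_a : Ell X (b (gen n true))
  a_ne : b (gen n true) ^ n ≠ 1

attribute [instance] Stage.gQ Stage.act

/-- The displacement of the base point by a word. -/
def Stage.len {n : ℕ} (S : Stage n) (w : Fr n) : ℕ := S.X.d S.pt (S.b w • S.pt)

/-- The word is elliptic. -/
def Stage.E {n : ℕ} (S : Stage n) (w : Fr n) : Prop := Ell S.X (S.b w)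

/-- The relation between two consecutive stages. -/
structure Next {n : ℕ} (S T : Stage n) : Prop where
  mono : ∀ w, S.b w = 1 → T.b w = 1
  len : ∀ w, T.len w ≤ 1 ∨ T.len w < S.len w
  kill : ∀ w, S.len w ≤ 1 → T.E w
  up : ∀ w, S.E w → T.E w
  down : ∀ w, T.E w → T.b (w ^ n) = 1 ∨ ∃ v, S.E v ∧ T.b v = T.b w
  tri : ∀ w₁ w₂ w₃, S.E w₁ → S.E w₂ → S.E w₃ → S.b w₁ ≠ 1 → S.b w₂ ≠ 1 → S.b w₃ ≠ 1 →
    T.b w₁ * T.b w₂ = T.b w₃ → ∃ v, S.E v ∧ S.E (v⁻¹ * w₃) ∧ T.b v = T.b w₁

theorem exists_stage (n : ℕ) (hn : Odd n) : Nonempty (Stage n) := by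
  have hpos : 0 < n := hn.pos
  have : NeZero (3 * n) := ⟨by omega⟩
  obtain ⟨X0, x1, x2, x3, x4⟩ := thm_clique.1 (Cy n)
  obtain ⟨Z, z1, z2, z3, z4, z5, z6, z7⟩ := scoprod Bool (fun _ => Cy n) (fun _ => X0)
    (fun _ => x1) (fun _ => x2) (fun _ => x3)
  have noinv : ∀ t : Cy n, t ^ 2 = 1 → t = 1 := by
    intro t ht
    have h1 : t ^ (3 * n) = 1 := by
      have := pow_card_eq_one (x := t)
      rwa [Fintype.card_multiplicative, ZMod.card] at this
    exact TstepR.eq_one_of_odd ht (Odd.mul (by decide) hn) h1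
  have ball : ∀ r : ℕ, {g : Fr n | Z.d 1 g ≤ r}.Finite := by
    intro r
    induction r with
    | zero =>
      refine (Set.finite_singleton 1).subset fun g hg => ?_
      exact (z3 1 g (Nat.le_zero.1 hg)).symm
    | succ r ih =>
      refine (ih.union (ih.image2 (fun a (x : Bool × Cy n) =>
        a * Monoid.CoprodI.of (M := fun _ : Bool => Cy n) (i := x.1) x.2)
        (Set.finite_univ))).subset fun g hg => ?_
      by_cases h : Z.d 1 g ≤ r
      · exact Or.inl h
      · right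
        have hg' : Z.d 1 g ≤ r + 1 := hg
        obtain ⟨a, ha1, ha2⟩ := Z.geo 1 g r (by omega)
        have e := z1 a 1 (a⁻¹ * g)
        simp only [smul_eq_mul, mul_one, mul_inv_cancel_left] at e
        obtain ⟨i, x, hx⟩ := z5 (a⁻¹ * g) (by omega)
        exact ⟨a, ha1.le, (i, x), Set.mem_univ _, by
          show a * Monoid.CoprodI.of (i := i) x = g
          rw [← hx, mul_inv_cancel_left]⟩
  refine ⟨{ Q := Fr n, V := Fr n, X := Z, b := MonoidHom.id _, pt := 1,
            good := ?_, proper := ?_, surj := fun g => ⟨g, rfl⟩, b_ker := ?_, cyc := ?_,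
            ell_a := ?_, a_ne := gen_pow_ne n hpos }⟩
  · have G := sbase0 (Fr n) (Fr n) Z 0 ⟨1⟩ z1 z2 (fun g x y h _ _ => by
      have := z3 _ _ h
      simpa using this) (z7 fun _ => noinv) 122 (10 ^ 9) (by norm_num)
    exact { G with dich := fun g => (G.dich g).imp id fun h => le_trans (by norm_num) h }
  · intro p r
    refine ((ball r).image fun g => p * g * p⁻¹).subset fun g hg => ?_
    refine ⟨p⁻¹ * g * p, ?_, by group⟩
    have e := z1 p 1 (p⁻¹ * g * p)
    simp only [smul_eq_mul, mul_one] at e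
    have hg' : Z.d p (g * p) ≤ r := hg
    show Z.d 1 (p⁻¹ * g * p) ≤ r
    rw [← e, show p * (p⁻¹ * g * p) = g * p by group]
    exact hg'
  · intro w hw
    have : w = 1 := hw
    rw [this]
    exact one_mem _
  · intro H hH
    rcases z6 H hH with rfl | ⟨i, s, hs⟩
    · exact ⟨1, bot_le⟩
    · refine ⟨s * gen n i * s⁻¹, fun h hh => ?_⟩
      obtain ⟨x, rfl, -⟩ := hs h hh
      obtain ⟨k, rfl⟩ := Subgroup.mem_zpowers_iff.1 (cy_mem n x)
      exact Subgroup.mem_zpowers_iff.2 ⟨k, by rw [conj_zpow, map_zpow]; rfl⟩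
  · refine ⟨1, 1, fun h hh => ?_⟩
    obtain ⟨k, rfl⟩ := Subgroup.mem_zpowers_iff.1 hh
    have e := z4 true 1 (Multiplicative.ofAdd 1 ^ k)
    rw [map_one, map_zpow] at e
    simp only [MonoidHom.id_apply, smul_eq_mul, mul_one]
    exact e.le.trans (x4 _ _)

theorem exists_next (n : ℕ) (hn : Odd n) (hb : 10 ^ 32 ≤ n) (S : Stage n) :
    ∃ T : Stage n, Next S T := by
  obtain ⟨R, W, iR, iW, Z, π, φ, hG, hP, hs, hφ, hd, hkill, hup, hinj, hdown, htri, hker⟩ :=
    step n hn hb S.Q S.V S.X S.good S.proper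
  refine ⟨{ Q := R, V := W, X := Z, b := π.comp S.b, pt := φ S.pt, good := hG, proper := hP,
            surj := hs.comp S.surj, b_ker := ?_, cyc := ?_, ell_a := hup _ S.ell_a,
            a_ne := ?_ }, ?_, ?_, ?_, fun w hw => hup _ hw, ?_, ?_⟩
  · intro w hw
    have h := hker (S.b w) hw
    have : ((NF n).map S.b).Normal := Subgroup.Normal.map inferInstance S.b S.surj
    have hle : Subgroup.normalClosure (Set.range fun q : S.Q => q ^ n) ≤ (NF n).map S.b := by
      apply Subgroup.normalClosure_le_normal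
      rintro _ ⟨q, rfl⟩
      obtain ⟨v, rfl⟩ := S.surj q
      exact ⟨v ^ n, Subgroup.subset_normalClosure ⟨v, rfl⟩, map_pow _ _ _⟩
    obtain ⟨v, hv, hvw⟩ := hle h
    have h2 : w * v⁻¹ ∈ NF n := S.b_ker _ (by rw [map_mul, map_inv, hvw, mul_inv_cancel])
    have h3 := mul_mem h2 hv
    simpa using h3
  · intro H hH
    rcases hdown H hH with ⟨g, -, hg⟩ | ⟨H', hH', rfl⟩
    · exact ⟨g, hg⟩
    · obtain ⟨g, hg⟩ := S.cyc H' hH'
      exact ⟨π g, by rw [← MonoidHom.map_zpowers]; exact Subgroup.map_mono hg⟩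
  · intro h
    apply S.a_ne
    exact hinj _ (ell_pow S.ell_a n) (by rw [map_pow]; exact h)
  · intro w hw
    change π (S.b w) = 1
    rw [hw, map_one]
  · intro w
    have := hd S.pt (S.b w • S.pt)
    rw [hφ] at this
    exact this
  · intro w hw
    apply hkill
    have h := (tau_holds S.Q S.V S.X S.good.inv).1 (S.b w) S.pt 1
    rw [pow_one, Nat.cast_one, mul_one] at h
    refine h.trans ?_
    exact_mod_cast hw
  · intro w hw
    rcases hdown _ hw with ⟨g, hg1, hg⟩ | ⟨H', hH', hm⟩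
    · left
      obtain ⟨k, hk⟩ := Subgroup.mem_zpowers_iff.1 (hg (Subgroup.mem_zpowers _))
      change g ^ k = π (S.b w) at hk
      change π (S.b (w ^ n)) = 1
      rw [map_pow, map_pow, ← hk, ← zpow_natCast, ← zpow_mul, mul_comm, zpow_mul, zpow_natCast, hg1,
        one_zpow]
    · right
      have : π (S.b w) ∈ H'.map π := by rw [hm]; exact Subgroup.mem_zpowers _
      obtain ⟨q, hq, e⟩ := this
      obtain ⟨v, rfl⟩ := S.surj q
      exact ⟨v, ell_of_mem hH' hq, e⟩
  · intro w₁ w₂ w₃ e₁ e₂ e₃ n₁ n₂ n₃ h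
    obtain ⟨v₁, v₂, f₁, f₂, g₁, -, g⟩ := htri _ _ _ e₁ e₂ e₃ n₁ n₂ n₃ h
    obtain ⟨v, rfl⟩ := S.surj v₁
    refine ⟨v, f₁, ?_, g₁⟩
    show Ell S.X (S.b (v⁻¹ * w₃))
    rwa [map_mul, map_inv, ← g, inv_mul_cancel_left]

theorem of_tower (n : ℕ) (h3 : 3 ∣ n) (S : ℕ → Stage n) (hS : ∀ k, Next (S k) (S (k + 1))) :
    ∃ (G : Type) (_ : Group G) (a : G), a ^ n ≠ 1 ∧
      (Set.range fun g : G => g * a * g⁻¹).Infinite ∧
      ∀ u : G, u ≠ 1 → {b : G | b ^ n ≠ 1 ∧ (b⁻¹ * u) ^ n ≠ 1}.Finite := by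
  have mono : ∀ k l, k ≤ l → ∀ w, (S k).b w = 1 → (S l).b w = 1 := by
    intro k l hkl g hg
    induction l, hkl using Nat.le_induction with
    | base => exact hg
    | succ l _ ih => exact (hS l).mono g ih
  have up : ∀ k l, k ≤ l → ∀ w, (S k).E w → (S l).E w := by
    intro k l hkl g hg
    induction l, hkl using Nat.le_induction with
    | base => exact hg
    | succ l _ ih => exact (hS l).up g ih
  let K : Subgroup (Fr n) :=
    { carrier := {w | ∃ k, (S k).b w = 1}
      one_mem' := ⟨0, map_one _⟩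
      mul_mem' := by
        rintro g h ⟨k, hk⟩ ⟨l, hl⟩
        refine ⟨max k l, ?_⟩
        rw [map_mul, mono k _ (le_max_left _ _) g hk, mono l _ (le_max_right _ _) h hl, mul_one]
      inv_mem' := by
        rintro g ⟨k, hk⟩
        exact ⟨k, by rw [map_inv, hk, inv_one]⟩ }
  have : K.Normal := by
    constructor
    rintro g ⟨k, hk⟩ h
    exact ⟨k, by rw [map_mul, map_mul, hk, mul_one, map_inv, mul_inv_cancel]⟩
  let mk : Fr n →* Fr n ⧸ K := QuotientGroup.mk' K
  have msurj : Function.Surjective mk := QuotientGroup.mk'_surjective K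
  have m1 : ∀ w, mk w = 1 ↔ ∃ k, (S k).b w = 1 := fun w => QuotientGroup.eq_one_iff w
  have meq : ∀ k v w, (S k).b v = (S k).b w → mk v = mk w := by
    intro k v w h
    have := (m1 (v⁻¹ * w)).2 ⟨k, by rw [map_mul, map_inv, h, inv_mul_cancel]⟩
    rwa [map_mul, map_inv, inv_mul_eq_one] at this
  have late : ∀ w : Fr n, ∃ k, (S k).E w := by
    intro w
    have short : ∃ k, (S k).len w ≤ 1 := by
      by_contra hcon
      push Not at hcon
      have dec : ∀ k, (S k).len w + k ≤ (S 0).len w := by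
        intro k
        induction k with
        | zero => simp
        | succ k ih =>
          rcases (hS k).len w with h | h
          · exact absurd h (not_le.2 (hcon _))
          · omega
      have := dec ((S 0).len w + 1)
      omega
    obtain ⟨k, hk⟩ := short
    exact ⟨k + 1, (hS k).kill w hk⟩
  refine ⟨Fr n ⧸ K, inferInstance, mk (gen n true), ?_, ?_, ?_⟩
  · intro h
    rw [← map_pow] at h
    obtain ⟨k, hk⟩ := (m1 _).1 h
    exact (S k).a_ne (by rwa [map_pow] at hk)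
  · intro hfin
    have : NeZero (3 * n) := ⟨by
      rintro h
      have h0 : n = 0 := by omega
      subst h0
      exact (S 0).a_ne (pow_zero _)⟩
    choose ρ hρ using msurj
    set a := gen n true with ha
    let C : Set (Fr n) := insert a (ρ '' Set.range fun g => g * mk a * g⁻¹)
    have hC : C.Finite := (hfin.image ρ).insert a
    have hCc : ∀ c ∈ C, ∃ g, mk c = g * mk a * g⁻¹ := by
      rintro c (rfl | ⟨_, ⟨g, rfl⟩, rfl⟩)
      · exact ⟨1, by simp⟩
      · exact ⟨g, hρ _⟩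
    have hst : ∀ x : C × Bool × Cy n, ∃ k, ∃ c' ∈ C,
        (S k).b (Monoid.CoprodI.of (M := fun _ : Bool => Cy n) (i := x.2.1) x.2.2 * x.1.1 *
          (Monoid.CoprodI.of (M := fun _ : Bool => Cy n) (i := x.2.1) x.2.2)⁻¹ * c'⁻¹) = 1 := by
      rintro ⟨⟨c, hc⟩, i, x⟩
      obtain ⟨g, hg⟩ := hCc c hc
      set t : Fr n := Monoid.CoprodI.of (M := fun _ : Bool => Cy n) (i := i) x
      obtain ⟨k, hk⟩ := (m1 (t * c * t⁻¹ * (ρ (mk t * g * mk a * (mk t * g)⁻¹))⁻¹)).1 (by
        rw [map_mul, map_inv, hρ, map_mul, map_mul, map_inv, hg]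
        group)
      exact ⟨k, _, Or.inr ⟨_, ⟨mk t * g, rfl⟩, rfl⟩, hk⟩
    choose κ hκ using hst
    have : Finite C := hC
    obtain ⟨k, hk⟩ := (Set.finite_range κ).bddAbove
    have hcl : ∀ w : Fr n, ∀ c ∈ C, ∃ c' ∈ C, (S k).b (w * c * w⁻¹) = (S k).b c' := by
      intro w
      induction w using Monoid.CoprodI.induction_on with
      | one => exact fun c hc => ⟨c, hc, by simp⟩
      | of i x =>
        intro c hc
        obtain ⟨c', hc', e⟩ := hκ (⟨c, hc⟩, i, x)
        have e' := mono _ k (hk ⟨_, rfl⟩) _ e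
        rw [map_mul, map_inv, mul_inv_eq_one] at e'
        exact ⟨c', hc', e'⟩
      | mul x y hx hy =>
        intro c hc
        obtain ⟨c1, h1, e1⟩ := hy c hc
        obtain ⟨c2, h2, e2⟩ := hx c1 h1
        refine ⟨c2, h2, ?_⟩
        rw [← e2, show x * y * c * (x * y)⁻¹ = x * (y * c * y⁻¹) * x⁻¹ by group]
        simp only [map_mul (S k).b _ x⁻¹, map_mul (S k).b x, e1]
    obtain ⟨x, hx⟩ := (sbasic _ _ (S k).X 122 (S k).good.inv (S k).good.four).2.1 _ (S k).ell_a
    obtain ⟨r, hr⟩ := (hC.image fun c => (S k).X.d x ((S k).b c • x)).bddAbove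
    have hne : (S k).b a ≠ 1 := fun h => (S k).a_ne (by rw [h, one_pow])
    have hB : Bdd (S k).X (⊤ : Subgroup (S k).Q) := by
      refine ⟨x, r + 2 * 10 ^ 9, fun g _ => ?_⟩
      obtain ⟨w, rfl⟩ := (S k).surj g
      obtain ⟨c, hc, e⟩ := hcl w⁻¹ a (Or.inl rfl)
      have h1 := far_move (S k).good (by norm_num) ((S k).b a) (S k).ell_a hne x
        (hx _ (Subgroup.mem_zpowers _)) ((S k).b w • x)
      have h2 : (S k).X.d x ((S k).b c • x) ≤ r := hr ⟨c, hc, rfl⟩
      have h4 := (S k).good.inv ((S k).b w) x ((S k).b c • x)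
      rw [← e, inv_inv, map_mul, map_mul, map_inv, mul_smul, mul_smul, smul_inv_smul] at h4
      rw [← e, inv_inv, map_mul, map_mul, map_inv, mul_smul, mul_smul] at h2
      omega
    obtain ⟨g, hg⟩ := (S k).cyc _ hB
    obtain ⟨w, rfl⟩ := (S k).surj g
    refine not_cyclic n h3 w fun i => ?_
    obtain ⟨j, hj⟩ := Subgroup.mem_zpowers_iff.1 (hg (Subgroup.mem_top ((S k).b (gen n i))))
    exact ⟨j, (S k).b_ker _ (by rw [map_mul, map_inv, map_zpow, hj, inv_mul_cancel])⟩
  · intro u hu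
    obtain ⟨u, rfl⟩ := msurj u
    obtain ⟨k0, hk0⟩ := late u
    have hne : ∀ k w, mk w ≠ 1 → (S k).b w ≠ 1 := fun k w h e => h ((m1 w).2 ⟨k, e⟩)
    have hfin := fin_stage (S k0).good (by norm_num) (S k0).proper _ hk0 (hne k0 u hu)
    choose σ hσ using (S k0).surj
    have desc : ∀ k, k0 ≤ k → ∀ w, mk w ^ n ≠ 1 → ((mk w)⁻¹ * mk u) ^ n ≠ 1 → (S k).E w →
        (S k).E (w⁻¹ * u) → ∃ v, mk v = mk w ∧ (S k0).E v ∧ (S k0).E (v⁻¹ * u) := by
      intro k hk
      induction k, hk using Nat.le_induction with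
      | base => exact fun w _ _ e1 e2 => ⟨w, rfl, e1, e2⟩
      | succ k hk ih =>
        intro w p1 p2 e1 e2
        have hn0 : n ≠ 0 := by rintro rfl; exact p1 (pow_zero _)
        obtain ⟨w1, f1, g1⟩ := ((hS k).down w e1).resolve_left
          (hne _ _ (by rwa [map_pow]))
        obtain ⟨w2, f2, g2⟩ := ((hS k).down _ e2).resolve_left
          (hne _ _ (by rwa [map_pow, map_mul, map_inv]))
        have q1 := meq _ _ _ g1
        have q2 := meq _ _ _ g2
        obtain ⟨v, i1, i2, i3⟩ := (hS k).tri w1 w2 u f1 f2 (up _ _ hk u hk0)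
          (hne _ _ fun e => p1 (by rw [← q1, e, one_pow]))
          (hne _ _ fun e => p2 (by rw [← map_inv, ← map_mul, ← q2, e, one_pow]))
          (hne _ _ hu) (by rw [g1, g2, map_mul, map_inv, mul_inv_cancel_left])
        have q3 : mk v = mk w := (meq _ _ _ i3).trans q1
        obtain ⟨v', j1, j2⟩ := ih v (by rwa [q3]) (by rwa [q3]) i1 i2
        exact ⟨v', j1.trans q3, j2⟩
    refine (hfin.image fun q => mk (σ q)).subset ?_
    rintro b ⟨p1, p2⟩
    obtain ⟨w, rfl⟩ := msurj b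
    obtain ⟨k1, h1⟩ := late w
    obtain ⟨k2, h2⟩ := late (w⁻¹ * u)
    obtain ⟨v, e, j1, j2⟩ := desc (max k0 (max k1 k2)) (le_max_left _ _) w p1 p2
      (up _ _ (by omega) _ h1) (up _ _ (by omega) _ h2)
    refine ⟨(S k0).b v, ⟨j1, ?_⟩, (meq k0 _ _ (hσ _)).trans e⟩
    have : Ell (S k0).X ((S k0).b (v⁻¹ * u)) := j2
    rwa [map_mul, map_inv] at this

/-- A group in which the elements with `b ^ n ≠ 1` form an infinite set `B` such that every
nontrivial element is a product of two elements of `B` in finitely many ways only. -/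
theorem exists_group (n : ℕ) (hn : Odd n) (hb : 10 ^ 32 ≤ n) (h3 : 3 ∣ n) :
    ∃ (G : Type) (_ : Group G) (a : G), a ^ n ≠ 1 ∧
      (Set.range fun g : G => g * a * g⁻¹).Infinite ∧
      ∀ u : G, u ≠ 1 → {b : G | b ^ n ≠ 1 ∧ (b⁻¹ * u) ^ n ≠ 1}.Finite := by
  obtain ⟨S0⟩ := exists_stage n hn
  choose nx hnx using exists_next n hn hb
  exact of_tower n h3 (fun k => nx^[k] S0) (fun k => by
    rw [Function.iterate_succ_apply']
    exact hnx _)

/-- In such a group any two infinite sets contain elements `s`, `t` with `(s * t) ^ n = 1`. -/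
theorem star_of {G : Type} [Group G] {n : ℕ}
    (h : ∀ u : G, u ≠ 1 → {b : G | b ^ n ≠ 1 ∧ (b⁻¹ * u) ^ n ≠ 1}.Finite)
    (S T : Set G) (hS : S.Infinite) (hT : T.Infinite) : ∃ s ∈ S, ∃ t ∈ T, (s * t) ^ n = 1 := by
  by_contra hc
  push Not at hc
  obtain ⟨s, hs, s', hs', hne⟩ := hS.nontrivial
  refine hT ((h (s * s'⁻¹) fun e => hne (mul_inv_eq_one.1 e)).preimage
    (f := fun t => s * t) (mul_right_injective s).injOn |>.subset fun t ht => ⟨hc s hs t ht, ?_⟩)
  intro e
  apply hc s' hs' t ht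
  rw [show (s * t)⁻¹ * (s * s'⁻¹) = (s' * t)⁻¹ by group, inv_pow, inv_eq_one] at e
  exact e

end Pool.Agent.H144Z.XY
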