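import Pool.Agent.SCZ.Geo.Tbdd
import Pool.Agent.H59Z.NA.Tpos

set_option autoImplicit false

/-!
# Triangles of elliptic elements lift along one step of small cancellation; properness persists
-/

namespace Pool.Agent.H144Z.XY

open Pool.Agent.H59Z.NA Pool.Agent.SCZ.Geo

section AGpart

variable {R W J : Type} [Group R] [MulAction R W] [MulAction R J] {L : ℕ} (A : AG R W J L)

theorem key (l m : J) (hne : l ≠ m) (y z : W) (hy : y ∈ A.Y m)
    (h : (1200 : ℝ) * L < A.ang l y z) : A.Z.eta (A.Y l) z + 1 ≤ A.Z.eta (A.Y m) z := by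
  obtain ⟨a, ha, ea⟩ := Tpos.eta_mem A.Z _ z (A.Y_ne m)
  have h1 := A.sep l m hne y hy a ha
  have h2 := A.ang_tri l y a z
  have h3 := Tpos.p1 A l a z (by linarith)
  have h4 := A.Z.comm a z
  omega

theorem behr (l m : J) (hne : l ≠ m) (y y' z : W) (hy : y ∈ A.Y m) (hy' : y' ∈ A.Y l)
    (h : (1200 : ℝ) * L < A.ang l y z) : A.ang m y' z ≤ 1200 * L := by
  by_contra hc
  have h1 := key A l m hne y z hy h
  have h2 := key A m l hne.symm y' z hy' (lt_of_not_ge hc)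
  omega

theorem eta_orbit (g : R) (l : J) (z : W) :
    A.Z.eta (A.Y (g • l)) z ≤ A.Z.d z (g • z) + A.Z.eta (A.Y l) z := by
  have h1 := Tbdd.eta_le A.Z (A.Y (g • l)) (A.Y_ne _) (g • z) z
  rw [Tpos.p3] at h1
  rwa [A.Z.comm z]

theorem junction (H : Subgroup R) (x : W) (r : ℕ) (B : ℝ)
    (hx : ∀ h ∈ H, A.Z.d x (h • x) ≤ r ∧ ∀ l, A.ang l x (h • x) ≤ B)
    (b : R) (hb : b ∈ H) (l : J) (hl : b • l ≠ l) (y : W) (hy : y ∈ A.Y (b • l)) :
    A.ang l y x ≤ B + 1200 * L := by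
  by_contra hc
  push Not at hc
  have step : ∀ j : ℕ, A.Z.eta (A.Y (b ^ j • l)) x + 1 ≤ A.Z.eta (A.Y (b ^ (j + 1) • l)) x := by
    intro j
    refine key A _ _ ?_ (b ^ j • y) x ?_ ?_
    · intro e
      rw [pow_succ, mul_smul] at e
      exact hl (smul_left_cancel _ e).symm
    · rw [pow_succ, mul_smul, A.Y_smul]
      exact hy
    · have h1 := A.ang_smul (b ^ j) l y x
      have h2 := A.ang_tri (b ^ j • l) (b ^ j • y) x (b ^ j • x)
      have h3 := (hx _ (H.pow_mem hb j)).2 (b ^ j • l)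
      linarith
  have grow : ∀ j : ℕ, j ≤ A.Z.eta (A.Y (b ^ j • l)) x := by
    intro j
    induction j with
    | zero => exact Nat.zero_le _
    | succ j ih => have := step j; omega
  have h1 := grow (r + A.Z.eta (A.Y l) x + 1)
  have h2 := eta_orbit A (b ^ (r + A.Z.eta (A.Y l) x + 1)) l x
  have h3 := (hx _ (H.pow_mem hb (r + A.Z.eta (A.Y l) x + 1))).1
  omega

theorem chain (m : ℕ → J) (hne : ∀ j, m j ≠ m (j + 1))
    (hbig : ∀ j, ∀ y ∈ A.Y (m j), ∀ y' ∈ A.Y (m (j + 2)),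
      (2400 : ℝ) * L < A.ang (m (j + 1)) y y')
    (z : W) (hz : z ∈ A.Y (m 0)) (j : ℕ) : j ≤ A.Z.eta (A.Y (m (j + 1))) z := by
  have hL : (1 : ℝ) ≤ L := by exact_mod_cast A.hL
  have main : ∀ j : ℕ, j ≤ A.Z.eta (A.Y (m (j + 1))) z ∧
      ∀ y ∈ A.Y (m j), A.ang (m (j + 1)) y z ≤ 1200 * L := by
    intro j
    induction j with
    | zero =>
      refine ⟨Nat.zero_le _, fun y hy => ?_⟩
      have := A.sep (m 1) (m 0) (hne 0).symm y hy z hz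
      simp only [zero_add]
      linarith
    | succ j ih =>
      obtain ⟨y, hy⟩ := A.Y_ne (m j)
      obtain ⟨y', hy'⟩ := A.Y_ne (m (j + 2))
      have h1 := hbig j y hy y' hy'
      have h2 := ih.2 y hy
      have h3 := A.ang_tri (m (j + 1)) y z y'
      have h4 := A.ang_comm (m (j + 1)) z y'
      have h5 : (1200 : ℝ) * L < A.ang (m (j + 1)) y' z := by linarith
      have h6 := key A _ _ (hne (j + 1)) y' z hy' h5
      exact ⟨by have := ih.1; omega, fun y'' hy'' => behr A _ _ (hne (j + 1)) y' y'' z hy' hy'' h5⟩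
  exact (main j).1

theorem ang_bound (H₁ H₂ : Subgroup R) (x y : W) (r : ℕ) (B : ℝ)
    (hx : ∀ h ∈ H₁, A.Z.d x (h • x) ≤ r ∧ ∀ l, A.ang l x (h • x) ≤ B)
    (hy : ∀ h ∈ H₂, A.Z.d y (h • y) ≤ r ∧ ∀ l, A.ang l y (h • y) ≤ B)
    (b b' : R) (hb : b ∈ H₁) (hb' : b' ∈ H₂) (nb : ∀ l : J, b • l ≠ l)
    (nb' : ∀ l : J, b' • l ≠ l) (hE : Ell A.Z (b * b')) (l : J) :
    A.ang l x y ≤ 2 * B + 4800 * L := by
  by_contra hc
  push Not at hc
  have ninv : ∀ c : R, (∀ l : J, c • l ≠ l) → ∀ l : J, c⁻¹ • l ≠ l := by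
    intro c hc l e
    apply hc l
    conv_lhs => rw [← e]
    rw [smul_inv_smul]
  let s : ℕ → R := fun j => if j % 2 = 0 then b else b'
  obtain ⟨g, g0, gs⟩ : ∃ g : ℕ → R, g 0 = 1 ∧ ∀ j, g (j + 1) = g j * s j :=
    ⟨fun j => Nat.rec 1 (fun j gj => gj * s j) j, rfl, fun _ => rfl⟩
  have g2 : ∀ k, g (2 * k) = (b * b') ^ k := by
    intro k
    induction k with
    | zero => rw [pow_zero]; exact g0
    | succ k ih =>
      have e1 : s (2 * k) = b := if_pos (by omega)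
      have e2 : s (2 * k + 1) = b' := if_neg (by omega)
      rw [show 2 * (k + 1) = 2 * k + 1 + 1 by ring, gs, gs, ih, e1, e2, pow_succ, mul_assoc]
  have ns : ∀ j, ∀ l : J, s j • l ≠ l := by
    intro j
    by_cases h : j % 2 = 0
    · rw [show s j = b from if_pos h]; exact nb
    · rw [show s j = b' from if_neg h]; exact nb'
  obtain ⟨z, hz⟩ := A.Y_ne l
  have hch := chain A (fun j => g j • l) (fun j e => by
      simp only [gs, mul_smul] at e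
      exact ns j l (smul_left_cancel _ e).symm) (fun j y1 hy1 y2 hy2 => by
      have e1 : (g (j + 1))⁻¹ • y1 ∈ A.Y ((s j)⁻¹ • l) := by
        rw [← A.Y_smul (g (j + 1)), smul_inv_smul, gs, mul_smul, smul_inv_smul]
        exact hy1
      have e2 : (g (j + 1))⁻¹ • y2 ∈ A.Y (s (j + 1) • l) := by
        rw [← A.Y_smul (g (j + 1)), smul_inv_smul, ← mul_smul, ← gs]
        exact hy2
      have e3 := A.ang_smul (g (j + 1)) l ((g (j + 1))⁻¹ • y1) ((g (j + 1))⁻¹ • y2)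
      rw [smul_inv_smul, smul_inv_smul] at e3
      show (2400 : ℝ) * L < A.ang (g (j + 1) • l) y1 y2
      rw [e3]
      generalize (g (j + 1))⁻¹ • y1 = z1 at e1 ⊢
      generalize (g (j + 1))⁻¹ • y2 = z2 at e2 ⊢
      by_cases h : j % 2 = 0
      · rw [show s j = b from if_pos h] at e1
        rw [show s (j + 1) = b' from if_neg (by omega)] at e2
        have a1 := junction A H₁ x r B hx b⁻¹ (H₁.inv_mem hb) l (ninv b nb l) z1 e1
        have a2 := junction A H₂ y r B hy b' hb' l (nb' l) z2 e2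
        have t1 := A.ang_tri l x z1 y
        have t2 := A.ang_tri l z1 z2 y
        have t3 := A.ang_comm l x z1
        linarith
      · rw [show s j = b' from if_neg h] at e1
        rw [show s (j + 1) = b from if_pos (by omega)] at e2
        have a1 := junction A H₂ y r B hy b'⁻¹ (H₂.inv_mem hb') l (ninv b' nb' l) z1 e1
        have a2 := junction A H₁ x r B hx b hb l (nb l) z2 e2
        have t1 := A.ang_tri l x z2 y
        have t2 := A.ang_tri l z2 z1 y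
        have t3 := A.ang_comm l x z2
        have t4 := A.ang_comm l z2 z1
        linarith) z (by show z ∈ A.Y (g 0 • l); rw [g0, one_smul]; exact hz)
  obtain ⟨o, ρ, ho⟩ := hE
  set k := 2 * A.Z.d z o + ρ + A.Z.eta (A.Y l) z + 1 with hk
  have h1 := hch (2 * k + 1)
  simp only [show 2 * k + 1 + 1 = 2 * (k + 1) by ring, g2] at h1
  have h2 := eta_orbit A ((b * b') ^ (k + 1)) l z
  have h3 := ho ((b * b') ^ (k + 1)) (Subgroup.npow_mem_zpowers _ _)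
  have h4 := A.Z.tri z o ((b * b') ^ (k + 1) • z)
  have h5 := A.Z.tri o ((b * b') ^ (k + 1) • o) ((b * b') ^ (k + 1) • z)
  have h6 := A.inv ((b * b') ^ (k + 1)) o z
  have h7 := A.Z.comm o z
  omega

end AGpart

section basics

variable {Q V : Type} [Group Q] [MulAction Q V] {X : GM V}

theorem ell_of_mem {H : Subgroup Q} (hH : Bdd X H) {g : Q} (hg : g ∈ H) : Ell X g := by
  obtain ⟨x, r, hx⟩ := hH
  exact ⟨x, r, fun h hh => hx h ((Subgroup.zpowers_le.2 hg) hh)⟩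

theorem ell_inv {g : Q} (hg : Ell X g) : Ell X g⁻¹ :=
  ell_of_mem hg (Subgroup.inv_mem _ (Subgroup.mem_zpowers g))

theorem ell_pow {g : Q} (hg : Ell X g) (n : ℕ) : Ell X (g ^ n) :=
  ell_of_mem hg (Subgroup.npow_mem_zpowers g n)

theorem ell_conj (hX : X.Inv Q) {g : Q} (hg : Ell X g) (s : Q) : Ell X (s * g * s⁻¹) := by
  obtain ⟨x, r, hx⟩ := hg
  refine ⟨s • x, r, fun h hh => ?_⟩
  obtain ⟨k, rfl⟩ := Subgroup.mem_zpowers_iff.1 hh
  rw [conj_zpow, mul_smul, mul_smul, inv_smul_smul, hX]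
  exact hx _ (Subgroup.zpow_mem_zpowers g k)

/-- The action is proper. -/
def Proper (X : GM V) (Q : Type) [Group Q] [MulAction Q V] : Prop :=
  ∀ (p : V) (r : ℕ), {g : Q | X.d p (g • p) ≤ r}.Finite

end basics

section lift

variable {Q V I : Type} [Group Q] [MulAction Q V] [MulAction Q I] {X : GM V} {L : ℕ}
  (F : Fam Q V I X L)

/-- All the coordinates of `p` and `q` are close. -/
def Cl (Ω : ℝ) (p q : V) : Prop := ∀ i, |F.c i p - F.c i q| ≤ Ω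

variable {F}

theorem Cl.symm {Ω : ℝ} {p q : V} (h : Cl F Ω p q) : Cl F Ω q p := fun i => by
  rw [abs_sub_comm]; exact h i

theorem Cl.trans {Ω Ω' : ℝ} {p q r : V} (h : Cl F Ω p q) (h' : Cl F Ω' q r) :
    Cl F (Ω + Ω') p r := fun i => (abs_sub_le _ _ _).trans (add_le_add (h i) (h' i))

theorem Cl.smul {Ω : ℝ} {p q : V} (h : Cl F Ω p q) (g : Q) : Cl F Ω (g • p) (g • q) := fun i => by
  rw [Tbdd.c_shift]; exact h _

variable {R W J : Type} [Group R] [MulAction R W] [MulAction R J]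
  {π : Q →* R} {A : AG R W J L} {φ : V → W} {ψ : I → J}

theorem down (hq : IsQuoP F π A φ ψ) (u : Q) (p : V)
    (hp : ∀ h ∈ Subgroup.zpowers u, X.d p (h • p) ≤ L) :
    ∀ h ∈ Subgroup.zpowers (π u), A.Z.d (φ p) (h • φ p) ≤ 1 ∧
      ∀ l, A.ang l (φ p) (h • φ p) ≤ 1002 * L := by
  intro h hh
  obtain ⟨k, rfl⟩ := Subgroup.mem_zpowers_iff.1 hh
  rw [← map_zpow, ← hq.quo.φ_smul]
  have h1 := hp _ (Subgroup.zpow_mem_zpowers u k)
  exact ⟨by simpa using hq.quo.scale 0 p (u ^ k • p) (by simpa using h1),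
    Tbdd.ang_small F hq _ _ h1⟩

theorem tri_lift (hX : X.Inv Q) (hq : IsQuoP F π A φ ψ)
    (hb : ∀ H : Subgroup Q, Bdd X H → ∃ p : V, ∀ h ∈ H, X.d p (h • p) ≤ L)
    (u₁ u₂ u₃ : Q) (e₁ : Ell X u₁) (e₂ : Ell X u₂) (e₃ : Ell X u₃) (n₁ : u₁ ≠ 1) (n₂ : u₂ ≠ 1)
    (n₃ : u₃ ≠ 1) (hrel : π u₁ * π u₂ = π u₃) :
    ∃ v₁ v₂ : Q, Ell X v₁ ∧ Ell X v₂ ∧ π v₁ = π u₁ ∧ π v₂ = π u₂ ∧ v₁ * v₂ = u₃ := by
  have hL : (1 : ℝ) ≤ L := by exact_mod_cast A.hL
  obtain ⟨p₁, hp₁⟩ := hb _ e₁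
  obtain ⟨p₂, hp₂⟩ := hb _ e₂
  obtain ⟨p₃, hp₃⟩ := hb _ e₃
  have d₁ := down hq u₁ p₁ hp₁
  have d₂ := down hq u₂ p₂ hp₂
  have d₃ := down hq u₃ p₃ hp₃
  have m₁ := Subgroup.mem_zpowers u₁
  have m₂ := Subgroup.mem_zpowers u₂
  have m₃ := Subgroup.inv_mem _ (Subgroup.mem_zpowers u₃)
  have f₁ := (Tbdd.part2 F hq _ p₁ hp₁ u₁ m₁ n₁).2
  have f₂ := (Tbdd.part2 F hq _ p₂ hp₂ u₂ m₂ n₂).2
  have f₃ := (Tbdd.part2 F hq _ p₃ hp₃ u₃⁻¹ m₃ (inv_ne_one.2 n₃)).2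
  rw [map_inv] at f₃
  have E₁ : Ell A.Z (π u₁) := ⟨φ p₁, 1, fun h hh => (d₁ h hh).1⟩
  have E₂ : Ell A.Z (π u₂) := ⟨φ p₂, 1, fun h hh => (d₂ h hh).1⟩
  have a₁ := ang_bound A _ _ (φ p₃) (φ p₁) 1 (1002 * L) d₃ d₁ (π u₃)⁻¹ (π u₁)
    (Subgroup.inv_mem _ (Subgroup.mem_zpowers _)) (Subgroup.mem_zpowers _) f₃ f₁
    (by rw [← hrel, mul_inv_rev, inv_mul_cancel_right]; exact ell_inv E₂)
  have a₂ := ang_bound A _ _ (φ p₂) (φ p₃) 1 (1002 * L) d₂ d₃ (π u₂) (π u₃)⁻¹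
    (Subgroup.mem_zpowers _) (Subgroup.inv_mem _ (Subgroup.mem_zpowers _)) f₂ f₃
    (by rw [← hrel, mul_inv_rev, mul_inv_cancel_left]; exact ell_inv E₁)
  obtain ⟨q₁, hq₁, -, c₁⟩ := hq.quo.lift _ p₃ (φ p₁) a₁ (by linarith)
  obtain ⟨q₂, hq₂, -, c₂⟩ := hq.quo.lift (2 * (1002 * L) + 4800 * L) p₃ (φ p₂)
    (fun l => by rw [A.ang_comm]; exact a₂ l) (by linarith)
  obtain ⟨k₁, hk₁, rfl⟩ := hq.quo.φ_eq _ _ hq₁.symm
  obtain ⟨k₂, hk₂, rfl⟩ := hq.quo.φ_eq _ _ hq₂.symm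
  have C₁ : Cl F _ p₃ (k₁ • p₁) := c₁
  have C₂ : Cl F _ p₃ (k₂ • p₂) := c₂
  have s₁ : Cl F (2 * L) (k₁ • p₁) ((k₁ * u₁ * k₁⁻¹) • k₁ • p₁) := by
    rw [mul_smul, inv_smul_smul, mul_smul]
    exact Cl.smul (Tbdd.c_small F _ _ (hp₁ _ m₁)) k₁
  have s₂ : Cl F (2 * L) (k₂ • p₂) ((k₂ * u₂ * k₂⁻¹) • k₂ • p₂) := by
    rw [mul_smul, inv_smul_smul, mul_smul]
    exact Cl.smul (Tbdd.c_small F _ _ (hp₂ _ m₂)) k₂
  have s₃ : Cl F (2 * L) p₃ (u₃⁻¹ • p₃) := Tbdd.c_small F _ _ (hp₃ _ m₃)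
  refine ⟨k₁ * u₁ * k₁⁻¹, k₂ * u₂ * k₂⁻¹, ell_conj hX e₁ _, ell_conj hX e₂ _,
    by simp [hk₁], by simp [hk₂], ?_⟩
  generalize hv₁ : k₁ * u₁ * k₁⁻¹ = v₁ at s₁ ⊢
  generalize hv₂ : k₂ * u₂ * k₂⁻¹ = v₂ at s₂ ⊢
  have π₁ : π v₁ = π u₁ := by rw [← hv₁]; simp [hk₁]
  have π₂ : π v₂ = π u₂ := by rw [← hv₂]; simp [hk₂]
  have t₁ : Cl F _ p₃ (v₁ • p₃) := (C₁.trans s₁).trans (C₁.symm.smul v₁)
  have t₂ : Cl F _ p₃ (v₂ • p₃) := (C₂.trans s₂).trans (C₂.symm.smul v₂)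
  have t₃ := s₃.trans ((t₁.trans (t₂.smul v₁)).smul u₃⁻¹)
  have hκ : u₃⁻¹ * v₁ * v₂ = 1 := by
    apply hq.quo.inj _ p₃
    · rw [map_mul, map_mul, map_inv, π₁, π₂, mul_assoc, hrel, inv_mul_cancel]
    · intro i
      have := t₃ i
      rw [mul_smul, mul_smul]
      linarith
  rw [mul_assoc, inv_mul_eq_one] at hκ
  exact hκ.symm

theorem ang_lin (hq : IsQuoP F π A φ ψ) (l : J) (n : ℕ) :
    ∀ p q : V, X.d p q ≤ n → A.ang l (φ p) (φ q) ≤ 1002 * L * (n + 1) := by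
  have hL : (1 : ℝ) ≤ L := by exact_mod_cast A.hL
  induction n with
  | zero =>
    intro p q h
    have := Tbdd.ang_small F hq p q (by omega) l
    simpa using this
  | succ n ih =>
    intro p q h
    by_cases h' : X.d p q ≤ n
    · have := ih p q h'
      push_cast
      nlinarith
    · obtain ⟨z, hz1, hz2⟩ := X.geo p q 1 (by omega)
      have a1 := Tbdd.ang_small F hq p z (by have := A.hL; omega) l
      have a2 := ih z q (by omega)
      have a3 := A.ang_tri l (φ p) (φ z) (φ q)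
      push_cast
      linarith

theorem shift (hq : IsQuoP F π A φ ψ) (M : ℕ) (i : I) (hM : (F.mu i : ℝ) * F.tr i ≤ M)
    (a b : V) (ha : a ∈ F.Y i) (hb : b ∈ F.Y i) (hab : F.c i a ≤ F.c i b) :
    ∃ a', φ a' = φ a ∧ X.d a' b ≤ M + L := by
  have hL : (1 : ℝ) ≤ L := by exact_mod_cast A.hL
  have hT : (0 : ℝ) < F.mu i * F.tr i := by have := F.big i; linarith
  have cp : ∀ n : ℕ, F.c i (F.gen i ^ n • a) = F.c i a + n * F.tr i := by
    intro n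
    induction n with
    | zero => simp
    | succ n ih => rw [pow_succ', mul_smul, F.c_gen, ih]; push_cast; ring
  set k := ⌊(F.c i b - F.c i a) / (F.mu i * F.tr i)⌋₊ with hk
  have k1 : (k : ℝ) ≤ (F.c i b - F.c i a) / (F.mu i * F.tr i) :=
    Nat.floor_le (div_nonneg (by linarith) hT.le)
  have k2 : (F.c i b - F.c i a) / (F.mu i * F.tr i) < k + 1 := Nat.lt_floor_add_one _
  rw [le_div_iff₀ hT] at k1
  rw [div_lt_iff₀ hT] at k2
  refine ⟨F.gen i ^ (F.mu i * k) • a, ?_, ?_⟩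
  · rw [hq.quo.φ_smul, pow_mul, map_pow, hq.quo.rel, one_pow, one_smul]
  · have hm : F.gen i ^ (F.mu i * k) • a ∈ F.Y i := by
      have := (F.Y_smul (F.gen i ^ (F.mu i * k)) i a).2 ha
      rwa [(F.stab _ i).2 (Subgroup.npow_mem_zpowers _ _)] at this
    have h1 := F.near i _ hm b hb
    rw [cp] at h1
    have h2 : |F.c i a + (F.mu i * k : ℕ) * F.tr i - F.c i b| ≤ M := by
      rw [abs_le]
      push_cast
      constructor <;> nlinarith
    have h3 : (X.d (F.gen i ^ (F.mu i * k) • a) b : ℝ) ≤ (M + L : ℕ) := by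
      push_cast
      push_cast at h1 h2
      linarith
    exact_mod_cast h3

theorem ang_unif (hq : IsQuoP F π A φ ψ) (M : ℕ) (hM : ∀ i, (F.mu i : ℝ) * F.tr i ≤ M)
    (l : J) (u w : W) : A.ang l u w ≤ 1002 * L * ((M + L : ℕ) + 1) + 1200 * L := by
  obtain ⟨i, rfl⟩ := hq.ψ_surj l
  obtain ⟨a, ha, ea⟩ := Tpos.eta_mem A.Z _ u (A.Y_ne (ψ i))
  obtain ⟨b, hb, eb⟩ := Tpos.eta_mem A.Z _ w (A.Y_ne (ψ i))
  have a1 := Tpos.p2 A (ψ i) u a ea.le
  have a2 := Tpos.p2 A (ψ i) w b eb.le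
  obtain ⟨a0, ha0, rfl⟩ := hq.Y_lift i a ha
  obtain ⟨b0, hb0, rfl⟩ := hq.Y_lift i b hb
  have a3 : A.ang (ψ i) (φ a0) (φ b0) ≤ 1002 * L * ((M + L : ℕ) + 1) := by
    rcases le_total (F.c i a0) (F.c i b0) with h | h
    · obtain ⟨a', e, hd⟩ := shift hq M i (hM i) a0 b0 ha0 hb0 h
      rw [← e]
      exact ang_lin hq _ _ _ _ hd
    · obtain ⟨b', e, hd⟩ := shift hq M i (hM i) b0 a0 hb0 ha0 h
      rw [← e, A.ang_comm]
      exact ang_lin hq _ _ _ _ hd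
  have t1 := A.ang_tri (ψ i) u (φ a0) w
  have t2 := A.ang_tri (ψ i) (φ a0) (φ b0) w
  have t3 := A.ang_comm (ψ i) w (φ b0)
  linarith

theorem proper_quo (hq : IsQuoP F π A φ ψ) (M : ℕ) (hM : ∀ i, (F.mu i : ℝ) * F.tr i ≤ M)
    (hP : Proper X Q) : Proper A.Z R := by
  intro w r
  have hL : (1 : ℝ) ≤ L := by exact_mod_cast A.hL
  obtain ⟨p, rfl⟩ := hq.quo.φ_surj w
  set Θ : ℝ := 1002 * L * ((M + L : ℕ) + 1) + 1200 * L with hΘ
  have hΘ0 : 0 ≤ Θ := by positivity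
  refine ((hP p ⌈(Θ + 1000 * L) * (r + 1)⌉₊).image π).subset ?_
  intro g hg
  obtain ⟨q, hq1, hq2, -⟩ := hq.quo.lift Θ p (g • φ p) (fun l => ang_unif hq M hM l _ _) hΘ0
  obtain ⟨g0, rfl⟩ := hq.quo.surj g
  rw [← hq.quo.φ_smul] at hq1
  obtain ⟨k, hk, rfl⟩ := hq.quo.φ_eq _ _ hq1.symm
  refine ⟨k * g0, ?_, by simp [hk]⟩
  have h1 : (A.Z.d (φ p) (π g0 • φ p) : ℝ) ≤ r := by exact_mod_cast hg
  have h2 : (X.d p (k • g0 • p) : ℝ) ≤ ⌈(Θ + 1000 * L) * (r + 1)⌉₊ :=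
    (hq2.trans (mul_le_mul_of_nonneg_left (by linarith) (by positivity))).trans (Nat.le_ceil _)
  show X.d p ((k * g0) • p) ≤ _
  rw [mul_smul]
  exact_mod_cast h2

end lift

end Pool.Agent.H144Z.XY
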